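import Pool.Agent.H70.Rk6

open Pool.Agent.H70.Rk

/-- Q1 fails: the Rokhlin property of the tensor product action on a stably finite minimal tensor
product of simple unital C*-algebras does not force the Rokhlin property of both factors. -/
theorem Pool.Agent.Results.MP_7f0ddb_an.FactorNotRokhlin.result :
    ¬ ∀ (A B D : Type) [CStarAlgebra A] [CStarAlgebra B] [CStarAlgebra D] (m : A → B → D)
      (G G' : Type) [Group G] [Fintype G] [Group G'] [Fintype G']
      (α : Action G A) (β : Action G' B) (γ : Action (G × G') D),
      IsSimpleAlg A → IsSimpleAlg B → IsMinTensor m → StablyFinite D →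
      IsTensorAction m α β γ → Rokhlin γ → Rokhlin α ∧ Rokhlin β :=
  main (H := lp (fun _ : ℤ × YY => ℂ) 2) (K := lp (fun _ : XX × XX => ℂ) 2)
    (HilbertBasis.ofRepr (LinearIsometryEquiv.refl _ _))
    (HilbertBasis.ofRepr (LinearIsometryEquiv.refl _ _))
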